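import Pool.Agent.H71.PW.Nec

open Polynomial

namespace Pool.Agent.H71.PW
open Pool.Agent.H322R2

theorem big_height (n : ℕ) (x w : ℝ) (hinf : {P : ℤ[X] | P.natDegree ≤ n ∧ 0 < |aeval x P| ∧
      |aeval x P| ≤ (height P : ℝ) ^ (-w)}.Infinite) (B : ℕ) :
    ∃ P : ℤ[X], P.natDegree ≤ n ∧ 0 < |aeval x P| ∧ |aeval x P| ≤ (height P : ℝ) ^ (-w) ∧
      B < height P := by
  by_contra hno
  push Not at hno
  apply hinf
  refine (finite_height n B).subset ?_
  rintro P ⟨h1, h2, h3⟩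
  exact ⟨h1, hno P h1 h2 h3⟩

theorem ge_of_big (n : ℕ) (x Ω w C : ℝ) (hΩ : 0 ≤ Ω) (hw : Ω < w)
    (h : ∀ B : ℕ, ∃ Q : ℤ[X], Q.natDegree ≤ n ∧ 0 < |aeval x Q| ∧
      |aeval x Q| ≤ C * (height Q : ℝ) ^ (-w) ∧ B < height Q) :
    ENNReal.ofReal Ω < mahlerExp n x := by
  obtain ⟨w', hw'1, hw'2⟩ : ∃ w', Ω < w' ∧ w' < w := exists_between hw
  have hlt : ENNReal.ofReal Ω < ENNReal.ofReal w' :=
    (ENNReal.ofReal_lt_ofReal_iff (by linarith)).mpr hw'1
  refine lt_of_lt_of_le hlt ?_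
  unfold mahlerExp
  apply le_sSup
  refine ⟨w', by linarith, rfl, ?_⟩
  apply Set.Infinite.of_image (fun P : ℤ[X] => height P)
  apply Set.infinite_of_forall_exists_gt
  intro B
  obtain ⟨B', hB'⟩ := exists_nat_ge (|C| ^ ((w - w')⁻¹))
  obtain ⟨Q, h1, h2, h3, h4⟩ := h (max (max B B') 1)
  have hB : B < height Q := lt_of_le_of_lt (by simp) h4
  have hB2 : B' < height Q := lt_of_le_of_lt (by simp) h4
  have hH1 : 1 < height Q := lt_of_le_of_lt (by simp) h4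
  refine ⟨height Q, ⟨Q, ⟨h1, h2, ?_⟩, rfl⟩, hB⟩
  have hH : (1 : ℝ) < height Q := by exact_mod_cast hH1
  have hH0 : (0 : ℝ) < height Q := by linarith
  have h5 : |C| ≤ (height Q : ℝ) ^ (w - w') := by
    have h6 : |C| ^ ((w - w')⁻¹) ≤ height Q := by
      refine hB'.trans ?_
      exact_mod_cast hB2.le
    have h7 : |C| = (|C| ^ ((w - w')⁻¹)) ^ (w - w') := by
      rw [← Real.rpow_mul (abs_nonneg C), inv_mul_cancel₀ (by linarith), Real.rpow_one]
    rw [h7]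
    exact Real.rpow_le_rpow (by positivity) h6 (by linarith)
  calc |aeval x Q| ≤ C * (height Q : ℝ) ^ (-w) := h3
    _ ≤ (height Q : ℝ) ^ (w - w') * (height Q : ℝ) ^ (-w) := by
        apply mul_le_mul_of_nonneg_right ((le_abs_self C).trans h5) (by positivity)
    _ = (height Q : ℝ) ^ (-w') := by
        rw [← Real.rpow_add hH0]; congr 1; ring

theorem pow_diff_le (x y M : ℝ) (hx : |x| ≤ M) (hy : |y| ≤ M) (i : ℕ) :
    |x ^ (i + 1) - y ^ (i + 1)| ≤ (i + 1) * M ^ i * |x - y| := by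
  have hM : 0 ≤ M := (abs_nonneg x).trans hx
  induction i with
  | zero => simp
  | succ i ih =>
    have h1 : x ^ (i + 1 + 1) - y ^ (i + 1 + 1) =
        x * (x ^ (i + 1) - y ^ (i + 1)) + (x - y) * y ^ (i + 1) := by ring
    rw [h1]
    refine (abs_add_le _ _).trans ?_
    rw [abs_mul, abs_mul, abs_pow]
    have h2 : |y| ^ (i + 1) ≤ M ^ (i + 1) := pow_le_pow_left₀ (abs_nonneg _) hy _
    have h3 : |x| * |x ^ (i + 1) - y ^ (i + 1)| ≤ M * ((i + 1) * M ^ i * |x - y|) :=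
      mul_le_mul hx ih (abs_nonneg _) hM
    have h4 : |x - y| * |y| ^ (i + 1) ≤ |x - y| * M ^ (i + 1) :=
      mul_le_mul_of_nonneg_left h2 (abs_nonneg _)
    calc |x| * |x ^ (i + 1) - y ^ (i + 1)| + |x - y| * |y| ^ (i + 1)
        ≤ M * ((i + 1) * M ^ i * |x - y|) + |x - y| * M ^ (i + 1) := add_le_add h3 h4
      _ = ((i + 1 : ℕ) + 1) * M ^ (i + 1) * |x - y| := by push_cast; ring

/-- the binomial attached to a linear polynomial -/
noncomputable def lift (σ κ : ℕ) (P : ℤ[X]) : ℤ[X] := kR (P.coeff 1 ^ σ) ((-P.coeff 0) ^ σ) κ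

theorem lift_coeff_top (σ κ : ℕ) (hκ : 1 ≤ κ) (P : ℤ[X]) :
    (lift σ κ P).coeff κ = P.coeff 1 ^ σ := by
  unfold lift kR
  rw [coeff_sub, coeff_C_mul, coeff_X_pow_self, coeff_C, if_neg (by omega)]
  simp

theorem lift_coeff_zero (σ κ : ℕ) (hκ : 1 ≤ κ) (P : ℤ[X]) :
    (lift σ κ P).coeff 0 = -(-P.coeff 0) ^ σ := by
  unfold lift kR
  rw [coeff_sub, coeff_C_mul, coeff_X_pow, if_neg (by omega), coeff_C, if_pos rfl]
  simp

theorem natAbs_coeff_le (P : ℤ[X]) (i : ℕ) : (P.coeff i).natAbs ≤ height P := by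
  have h2 := coeff_le_height P i
  have h3 : |P.coeff i| ≤ (height P : ℤ) := by exact_mod_cast h2
  rw [Int.abs_eq_natAbs] at h3
  exact_mod_cast h3

theorem height_lift (σ κ : ℕ) (hκ : 1 ≤ κ) (P : ℤ[X]) (hP : P.natDegree ≤ 1) :
    height (lift σ κ P) = height P ^ σ := by
  apply le_antisymm
  · apply height_le
    intro i
    unfold lift kR
    rw [coeff_sub, coeff_C_mul, coeff_X_pow, coeff_C]
    by_cases h1 : i = κ
    · rw [if_pos h1, if_neg (by omega)]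
      simp only [mul_one, sub_zero, Int.natAbs_pow]
      exact Nat.pow_le_pow_left (natAbs_coeff_le P 1) _
    · rw [if_neg h1]
      by_cases h0 : i = 0
      · rw [if_pos h0]
        simp only [mul_zero, zero_sub, Int.natAbs_neg, Int.natAbs_pow]
        exact Nat.pow_le_pow_left (natAbs_coeff_le P 0) _
      · rw [if_neg h0]
        simp
  · have h1 : height P ≤ max (P.coeff 1).natAbs (P.coeff 0).natAbs := by
      apply height_le
      intro i
      rcases Nat.lt_trichotomy i 1 with h | h | h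
      · have : i = 0 := by omega
        subst this
        exact le_max_right _ _
      · subst h
        exact le_max_left _ _
      · rw [coeff_eq_zero_of_natDegree_lt (by omega)]
        simp
    have h2 := natAbs_coeff_le (lift σ κ P) κ
    have h3 := natAbs_coeff_le (lift σ κ P) 0
    rw [lift_coeff_top σ κ hκ] at h2
    rw [lift_coeff_zero σ κ hκ] at h3
    simp only [Int.natAbs_neg, Int.natAbs_pow] at h2 h3
    rcases le_max_iff.mp h1 with h | h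
    · exact (Nat.pow_le_pow_left h σ).trans h2
    · exact (Nat.pow_le_pow_left h σ).trans h3

theorem lift_step (κ ℓ : ℕ) (hκ : 1 ≤ κ) (hℓ : 1 ≤ ℓ) (ξ : ℝ) (hξ : Transcendental ℤ ξ) (w : ℝ)
    (hw : 0 ≤ w) (P : ℤ[X]) (hP : P.natDegree ≤ 1) (_hpos : 0 < |aeval (ξ ^ κ) P|)
    (hle : |aeval (ξ ^ κ) P| ≤ (height P : ℝ) ^ (-w)) (hH : 1 < height P) :
    (lift (sg κ ℓ) (kp κ ℓ) P).natDegree ≤ kp κ ℓ ∧
    0 < |aeval (ξ ^ ℓ) (lift (sg κ ℓ) (kp κ ℓ) P)| ∧
    |aeval (ξ ^ ℓ) (lift (sg κ ℓ) (kp κ ℓ) P)| ≤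
      ((sg κ ℓ : ℝ) * (1 + |ξ| ^ κ) ^ (sg κ ℓ - 1)) *
        (height (lift (sg κ ℓ) (kp κ ℓ) P) : ℝ) ^ (-((w + 1) / sg κ ℓ - 1)) := by
  have hσ := sg_pos κ ℓ hℓ
  have hκ' := kp_pos κ ℓ hκ
  have hsk := sg_kp κ ℓ
  set σ := sg κ ℓ with hσd
  set κ' := kp κ ℓ with hκd
  have hHr : (1 : ℝ) < height P := by exact_mod_cast hH
  have hH0 : (0 : ℝ) < height P := by linarith
  set a := P.coeff 1 with ha
  set b := -P.coeff 0 with hb
  have hPev : ∀ y : ℝ, aeval y P = a * y - b := by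
    intro y
    rw [aeval_eq_sum_range' (lt_of_le_of_lt hP (by norm_num : 1 < 2))]
    rw [Finset.sum_range_succ, Finset.sum_range_one, ha, hb]
    simp
    ring
  have ha0 : a ≠ 0 := by
    intro h0
    have h1 := hle
    rw [hPev, h0] at h1
    simp only [Int.cast_zero, zero_mul, zero_sub, abs_neg] at h1
    have h2 : height P ≤ b.natAbs := by
      apply height_le
      intro i
      rcases Nat.lt_trichotomy i 1 with h | h | h
      · have : i = 0 := by omega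
        subst this
        rw [hb]; simp
      · subst h
        rw [← ha, h0]; simp
      · rw [coeff_eq_zero_of_natDegree_lt (by omega)]
        simp
    have h3 : (height P : ℝ) ≤ |(b : ℝ)| := by
      have h4 : (height P : ℝ) ≤ (b.natAbs : ℝ) := by exact_mod_cast h2
      rw [Nat.cast_natAbs] at h4
      push_cast at h4
      exact h4
    have h5 : (height P : ℝ) ^ (-w) ≤ 1 :=
      Real.rpow_le_one_of_one_le_of_nonpos hHr.le (by linarith)
    linarith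
  have hQev : aeval (ξ ^ ℓ) (lift σ κ' P) = (a * ξ ^ κ) ^ σ - (b : ℝ) ^ σ := by
    unfold lift
    rw [kR_aeval, ← pow_mul, hsk, mul_pow, ← pow_mul, ha, hb]
    push_cast
    rfl
  have hQne : lift σ κ' P ≠ 0 := by
    intro h0
    have h1 := lift_coeff_top σ κ' hκ' P
    rw [h0] at h1
    simp only [coeff_zero] at h1
    exact pow_ne_zero σ ha0 h1.symm
  refine ⟨?_, ?_, ?_⟩
  · unfold lift
    rw [kR_natDegree _ _ (pow_ne_zero σ ha0) κ' hκ']
  · rw [abs_pos]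
    have htr : Transcendental ℤ (ξ ^ ℓ) := hξ.pow (by omega)
    intro h0
    exact htr ⟨_, hQne, h0⟩
  · rw [hQev]
    obtain ⟨i, hi⟩ : ∃ i, σ = i + 1 := ⟨σ - 1, by omega⟩
    have hX : (1 : ℝ) ≤ 1 + |ξ| ^ κ := by
      have : 0 ≤ |ξ| ^ κ := by positivity
      linarith
    have haH : |(a : ℝ)| ≤ height P := coeff_le_height P 1
    have hbH : |(b : ℝ)| ≤ height P := by
      have := coeff_le_height P 0
      rw [hb]; push_cast; rw [abs_neg]; exact this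
    have hM1 : |(a : ℝ) * ξ ^ κ| ≤ height P * (1 + |ξ| ^ κ) := by
      rw [abs_mul, abs_pow]
      apply mul_le_mul haH (by linarith) (by positivity) hH0.le
    have hM2 : |(b : ℝ)| ≤ height P * (1 + |ξ| ^ κ) := by
      calc |(b : ℝ)| ≤ height P * 1 := by rw [mul_one]; exact hbH
        _ ≤ _ := mul_le_mul_of_nonneg_left hX hH0.le
    have h1 := pow_diff_le _ _ _ hM1 hM2 i
    have h2 : |(a : ℝ) * ξ ^ κ - b| ≤ (height P : ℝ) ^ (-w) := by
      rw [← hPev]; exact hle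
    rw [height_lift σ κ' hκ' P hP, hi]
    have h3 : ((height P ^ (i + 1) : ℕ) : ℝ) ^ (-((w + 1) / ((i + 1 : ℕ) : ℝ) - 1)) =
        (height P : ℝ) ^ i * (height P : ℝ) ^ (-w) := by
      push_cast
      rw [← Real.rpow_natCast (height P : ℝ) (i + 1), ← Real.rpow_natCast (height P : ℝ) i,
        ← Real.rpow_mul hH0.le, ← Real.rpow_add hH0]
      congr 1
      have : (0 : ℝ) < (i : ℝ) + 1 := by positivity
      push_cast
      field_simp
      ring
    rw [h3]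
    calc |(↑a * ξ ^ κ) ^ (i + 1) - (b : ℝ) ^ (i + 1)|
        ≤ (i + 1) * (height P * (1 + |ξ| ^ κ)) ^ i * |(a : ℝ) * ξ ^ κ - b| := h1
      _ ≤ (i + 1) * (height P * (1 + |ξ| ^ κ)) ^ i * (height P : ℝ) ^ (-w) :=
          mul_le_mul_of_nonneg_left h2 (by positivity)
      _ = _ := by
          rw [mul_pow, Nat.add_sub_cancel]
          push_cast
          ring

theorem comp_nec (κ ℓ : ℕ) (hκ : 1 ≤ κ) (hℓ : 1 ≤ ℓ) (ξ : ℝ) (hξ : Transcendental ℤ ξ)
    (Vκ Vℓ : ℝ) (hVℓ : 0 ≤ Vℓ) (h1 : mahlerExp 1 (ξ ^ κ) = ENNReal.ofReal Vκ)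
    (h2 : mahlerExp (kp κ ℓ) (ξ ^ ℓ) = ENNReal.ofReal Vℓ) :
    Vκ + 1 ≤ (sg κ ℓ : ℝ) * (Vℓ + 1) := by
  by_contra hlt
  push Not at hlt
  have hσ : (1 : ℝ) ≤ sg κ ℓ := by exact_mod_cast sg_pos κ ℓ hℓ
  obtain ⟨w, hw1, hw2⟩ : ∃ w, (sg κ ℓ : ℝ) * (Vℓ + 1) - 1 < w ∧ w < Vκ :=
    exists_between (by linarith)
  have hw0 : 0 ≤ w := by nlinarith
  have hlt2 : ENNReal.ofReal w < mahlerExp 1 (ξ ^ κ) := by
    rw [h1]
    exact (ENNReal.ofReal_lt_ofReal_iff (by linarith)).mpr hw2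
  unfold mahlerExp at hlt2
  obtain ⟨_, ⟨w1, hw10, rfl, hinf⟩, hw1w⟩ := lt_sSup_iff.mp hlt2
  have hww : w < w1 := by
    by_contra hno
    push Not at hno
    exact absurd hw1w (not_lt.mpr (ENNReal.ofReal_le_ofReal hno))
  have hgt : Vℓ < (w1 + 1) / sg κ ℓ - 1 := by
    rw [lt_sub_iff_add_lt, lt_div_iff₀ (by linarith)]
    linarith
  have := ge_of_big (kp κ ℓ) (ξ ^ ℓ) Vℓ ((w1 + 1) / sg κ ℓ - 1)
    ((sg κ ℓ : ℝ) * (1 + |ξ| ^ κ) ^ (sg κ ℓ - 1)) hVℓ hgt (by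
      intro B
      obtain ⟨P, p1, p2, p3, p4⟩ := big_height 1 (ξ ^ κ) w1 hinf (max B 1)
      have hH1 : 1 < height P := lt_of_le_of_lt (le_max_right _ _) p4
      have hHB : B < height P := lt_of_le_of_lt (le_max_left _ _) p4
      obtain ⟨q1, q2, q3⟩ := lift_step κ ℓ hκ hℓ ξ hξ w1 hw10 P p1 p2 p3 hH1
      refine ⟨_, q1, q2, q3, ?_⟩
      rw [height_lift _ _ (kp_pos κ ℓ hκ) P p1]
      exact lt_of_lt_of_le hHB (Nat.le_self_pow (by have := sg_pos κ ℓ hℓ; omega) _))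
  rw [h2] at this
  exact lt_irrefl _ this

end Pool.Agent.H71.PW
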