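import Pool.Agent.H71.PW.Main
import Pool.Agent.H71.PW.Comp

open Polynomial

namespace Pool.Agent.H71.PW

/-- `w_{kn}(ξ) = w_n(ξ^k) + δ_k` and `w_{kn}^*(ξ) = w_n^*(ξ^k) + δ_k`, all four exponents finite,
for all `1 ≤ k ≤ K` and `1 ≤ n ≤ N` at once. -/
def HasGaps (K N : ℕ) (δ : ℕ → ℝ) (ξ : ℝ) : Prop :=
  ∀ k n : ℕ, 1 ≤ k → k ≤ K → 1 ≤ n → n ≤ N →
    mahlerExp (k * n) ξ = mahlerExp n (ξ ^ k) + ENNReal.ofReal (δ k) ∧
    koksmaExp (k * n) ξ = koksmaExp n (ξ ^ k) + ENNReal.ofReal (δ k) ∧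
    mahlerExp (k * n) ξ ≠ ⊤ ∧ mahlerExp n (ξ ^ k) ≠ ⊤ ∧
    koksmaExp (k * n) ξ ≠ ⊤ ∧ koksmaExp n (ξ ^ k) ≠ ⊤

/-- `w_n(ξ^k) = w_n^*(ξ^k) = V_k` for all `1 ≤ k ≤ K` and `1 ≤ n ≤ N` at once. -/
def HasExponents (K N : ℕ) (V : ℕ → ℝ) (ξ : ℝ) : Prop :=
  ∀ k n : ℕ, 1 ≤ k → k ≤ K → 1 ≤ n → n ≤ N →
    mahlerExp n (ξ ^ k) = ENNReal.ofReal (V k) ∧ koksmaExp n (ξ ^ k) = ENNReal.ofReal (V k)

/-- `V_i + 1 ≤ (j / gcd(i,j)) (V_j + 1)` for all `1 ≤ i, j ≤ K`. -/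
def Compatible (K : ℕ) (V : ℕ → ℝ) : Prop :=
  ∀ i j : ℕ, 1 ≤ i → i ≤ K → 1 ≤ j → j ≤ K →
    V i + 1 ≤ ((j / Nat.gcd i j : ℕ) : ℝ) * (V j + 1)

/-- `δ_1 = 0` and `δ_k ≤ δ_{kd}` whenever `kd ≤ K`. -/
def DivMonotone (K : ℕ) (δ : ℕ → ℝ) : Prop :=
  δ 1 = 0 ∧ ∀ k d : ℕ, 1 ≤ k → 1 ≤ d → k * d ≤ K → δ k ≤ δ (k * d)

theorem spec_suff (K N : ℕ) (hK : 1 ≤ K) (hN : 1 ≤ N) (V : ℕ → ℝ)
    (hbig : ∀ k, 1 ≤ k → k ≤ K → 2 * (K : ℝ) ^ 2 * N + K ≤ V k) (hV : Compatible K V)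
    (a b : ℝ) (ha : 1 / 2 ≤ a) (hab : a < b) (hb : b ≤ 1) :
    ¬ {ξ : ℝ | a < ξ ∧ ξ < b ∧ Transcendental ℤ ξ ∧ HasExponents K N V ξ}.Countable := by
  intro hC
  obtain ⟨ξ, ⟨hξC, h1, h2⟩, h3, h4⟩ := exist K N hK hN V hbig hV _ hC a ((b - a) / 2) ha
    (by linarith) (by linarith)
  exact hξC ⟨h1, by linarith, h3, h4⟩

theorem spec_nec (K N : ℕ) (hKN : K ≤ N) (V : ℕ → ℝ) (hV : ∀ k, 1 ≤ k → k ≤ K → 0 ≤ V k)
    (ξ : ℝ) (hξ : Transcendental ℤ ξ) (h : HasExponents K N V ξ) : Compatible K V := by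
  intro i j hi hiK hj hjK
  have h1 := (h i 1 hi hiK le_rfl (by omega)).1
  have h2 := (h j (kp i j) hj hjK (kp_pos i j hi) ((kp_le i j).trans (hiK.trans hKN))).1
  exact comp_nec i j hi hj ξ hξ (V i) (V j) (hV j hj hjK) h1 h2

theorem gap_suff (K N : ℕ) (hK : 1 ≤ K) (hN : 1 ≤ N) (δ : ℕ → ℝ)
    (hδ : ∀ k, 1 ≤ k → k ≤ K → 0 ≤ δ k) (hm : DivMonotone K δ)
    (a b : ℝ) (ha : 1 / 2 ≤ a) (hab : a < b) (hb : b ≤ 1) :
    ¬ {ξ : ℝ | a < ξ ∧ ξ < b ∧ Transcendental ℤ ξ ∧ HasGaps K N δ ξ}.Countable := by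
  obtain ⟨h1, hmono⟩ := hm
  set Δ : ℝ := ∑ k ∈ Finset.Icc 1 K, δ k with hΔ
  have hle : ∀ k, 1 ≤ k → k ≤ K → δ k ≤ Δ := by
    intro k hk hkK
    rw [hΔ]
    apply Finset.single_le_sum (f := δ) _ (Finset.mem_Icc.mpr ⟨hk, hkK⟩)
    intro i hi
    rw [Finset.mem_Icc] at hi
    exact hδ i hi.1 hi.2
  set U : ℝ := 2 * (K : ℝ) ^ 2 * ((K * N : ℕ) : ℝ) + K with hU
  have hU0 : 0 ≤ U := by rw [hU]; positivity
  set V : ℕ → ℝ := fun k => U + 2 * Δ - δ k with hVdef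
  have hΔ0 : 0 ≤ Δ := (hδ 1 le_rfl hK).trans (hle 1 le_rfl hK)
  have hVU : ∀ k, 1 ≤ k → k ≤ K → U ≤ V k := by
    intro k hk hkK
    have := hle k hk hkK
    simp only [hVdef]
    linarith
  have hcomp : Compatible K V := by
    intro i j hi hiK hj hjK
    have hg : 0 < Nat.gcd i j := Nat.gcd_pos_of_pos_left _ (by omega)
    by_cases hd : j ∣ i
    · have e : j / Nat.gcd i j = 1 := by
        rw [Nat.gcd_eq_right hd]
        exact Nat.div_self (by omega)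
      rw [e]
      obtain ⟨d, rfl⟩ := hd
      have hd1 : 1 ≤ d := by
        rcases Nat.eq_zero_or_pos d with h | h
        · subst h; omega
        · exact h
      have := hmono j d hj hd1 hiK
      simp only [hVdef, Nat.cast_one, one_mul]
      linarith
    · have e : 2 ≤ j / Nat.gcd i j := by
        have h2 : Nat.gcd i j ∣ j := Nat.gcd_dvd_right i j
        obtain ⟨c, hc⟩ := h2
        have hc0 : j / Nat.gcd i j = c := by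
          conv_lhs => rw [hc]
          rw [← hc]
          exact Nat.div_eq_of_eq_mul_right hg hc
        rw [hc0]
        by_contra hlt
        have hc1 : c = 0 ∨ c = 1 := by omega
        rcases hc1 with h | h
        · rw [h, mul_zero] at hc; omega
        · rw [h, mul_one] at hc
          apply hd
          rw [hc]
          exact Nat.gcd_dvd_left i j
      have e' : (2 : ℝ) ≤ ((j / Nat.gcd i j : ℕ) : ℝ) := by exact_mod_cast e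
      have h3 := hVU j hj hjK
      have h4 := hle j hj hjK
      have h5 := hδ i hi hiK
      have h6 : 2 * (V j + 1) ≤ ((j / Nat.gcd i j : ℕ) : ℝ) * (V j + 1) :=
        mul_le_mul_of_nonneg_right e' (by linarith)
      refine le_trans ?_ h6
      simp only [hVdef]
      linarith
  intro hC
  refine spec_suff K (K * N) hK (Nat.mul_pos hK hN) V hVU hcomp a b ha hab hb (hC.mono ?_)
  rintro ξ ⟨ha', hb', htr, hE⟩
  refine ⟨ha', hb', htr, ?_⟩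
  intro k n hk hkK hn hnN
  have hkn1 : 1 ≤ k * n := Nat.mul_pos hk hn
  have hknN : k * n ≤ K * N := Nat.mul_le_mul hkK hnN
  have hnKN : n ≤ K * N := hnN.trans (Nat.le_mul_of_pos_left _ hK)
  obtain ⟨e1, e2⟩ := hE 1 (k * n) le_rfl hK hkn1 hknN
  obtain ⟨e3, e4⟩ := hE k n hk hkK hn hnKN
  rw [pow_one] at e1 e2
  have hV1 : V 1 = V k + δ k := by
    simp only [hVdef, h1]
    ring
  have hVk0 : 0 ≤ V k := hU0.trans (hVU k hk hkK)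
  refine ⟨?_, ?_, ?_, ?_, ?_, ?_⟩
  · rw [e1, e3, hV1, ENNReal.ofReal_add hVk0 (hδ k hk hkK)]
  · rw [e2, e4, hV1, ENNReal.ofReal_add hVk0 (hδ k hk hkK)]
  · rw [e1]; exact ENNReal.ofReal_ne_top
  · rw [e3]; exact ENNReal.ofReal_ne_top
  · rw [e2]; exact ENNReal.ofReal_ne_top
  · rw [e4]; exact ENNReal.ofReal_ne_top

theorem gap_necessary (K N : ℕ) (hK : 1 ≤ K) (hKN : K ≤ N) (δ : ℕ → ℝ)
    (hδ : ∀ k, 1 ≤ k → k ≤ K → 0 ≤ δ k) (ξ : ℝ) (h : HasGaps K N δ ξ) : DivMonotone K δ :=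
  gap_nec K N (hK.trans hKN) hKN δ hδ ξ
    (fun k n h1 h2 h3 h4 => ⟨(h k n h1 h2 h3 h4).1, (h k n h1 h2 h3 h4).2.2.2.1⟩) hK

end Pool.Agent.H71.PW
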