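import Pool.Graph.R_seed8.H322R2.KC

open Polynomial IntermediateField

namespace Pool.Agent.H71.PW
open Pool.Agent.H322R2

theorem cop_pow (m p : ℕ) (hp : p % 12 = 2) (σ : ℕ) :
    IsCoprime (((3 : ℤ) ^ m) ^ σ) ((p : ℤ) ^ σ) := by
  apply IsCoprime.pow
  apply IsCoprime.pow_left
  rw [Int.isCoprime_iff_gcd_eq_one]
  have h3p : ¬ (3 : ℕ) ∣ p := by omega
  have := (Nat.Prime.coprime_iff_not_dvd Nat.prime_three).mpr h3p
  exact_mod_cast this

theorem prim_of_cop (a b : ℤ) (hab : IsCoprime a b) (κ : ℕ) (hκ : 1 ≤ κ) :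
    (kR a b κ).IsPrimitive := by
  intro r hr
  rw [C_dvd_iff_dvd_coeff] at hr
  have h1 := hr κ
  have h2 := hr 0
  unfold kR at h1 h2
  rw [coeff_sub, coeff_C_mul, coeff_X_pow_self, coeff_C, if_neg (by omega)] at h1
  rw [coeff_sub, coeff_C_mul, coeff_X_pow, if_neg (by omega), coeff_C, if_pos rfl] at h2
  apply hab.isUnit_of_dvd'
  · simpa using h1
  · simpa using h2

theorem natDegree_map_kR (a b : ℤ) (ha : 0 < a) (κ : ℕ) (hκ : 1 ≤ κ) :
    ((kR a b κ).map (Int.castRingHom ℚ)).natDegree = κ := by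
  rw [natDegree_map_eq_of_injective Int.cast_injective, kR_natDegree a b ha.ne' κ hκ]

theorem aeval_map_kR (a b : ℤ) (κ : ℕ) (x : ℝ) (hx : (a : ℝ) * x ^ κ = b) :
    aeval x ((kR a b κ).map (Int.castRingHom ℚ)) = 0 := by
  rw [show (Int.castRingHom ℚ) = algebraMap ℤ ℚ from rfl, aeval_map_algebraMap, kR_aeval, hx,
    sub_self]

/-- `a^σ X^κ - b^σ` is irreducible for `a = 3^m`, `b ≡ 2 mod 12` and coprime `σ`, `κ` -/
theorem kR_irr_gen (m : ℕ) (hm : 1 ≤ m) (p : ℕ) (hp : p % 12 = 2) (κ σ : ℕ) (hκ : 1 ≤ κ)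
    (hc : Nat.Coprime σ κ) :
    Irreducible (kR (((3 : ℤ) ^ m) ^ σ) ((p : ℤ) ^ σ) κ) := by
  have h3 : (0 : ℤ) < (3 : ℤ) ^ m := by positivity
  have h3σ : (0 : ℤ) < ((3 : ℤ) ^ m) ^ σ := by positivity
  have hp0 : (0 : ℝ) < p := by
    have : 0 < p := by omega
    exact_mod_cast this
  have hq : (0 : ℝ) < (3 : ℝ) ^ m := by positivity
  set β : ℝ := ((p : ℝ) / 3 ^ m) ^ ((κ : ℝ)⁻¹) with hβ
  have hpq : (0 : ℝ) < (p : ℝ) / 3 ^ m := by positivity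
  have hβ0 : 0 < β := Real.rpow_pos_of_pos hpq _
  have hβκ : β ^ κ = (p : ℝ) / 3 ^ m := Real.rpow_inv_natCast_pow hpq.le (by omega)
  have hβeq : (((3 : ℤ) ^ m : ℤ) : ℝ) * β ^ κ = ((p : ℤ) : ℝ) := by
    rw [hβκ]; push_cast; field_simp
  have hγeq : ((((3 : ℤ) ^ m) ^ σ : ℤ) : ℝ) * (β ^ σ) ^ κ = (((p : ℤ) ^ σ : ℤ) : ℝ) := by
    have e : (β ^ σ) ^ κ = (β ^ κ) ^ σ := by rw [← pow_mul, ← pow_mul, mul_comm]
    rw [e, hβκ]; push_cast; rw [← mul_pow]; congr 1; field_simp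
  have hirr := kR_irr m hm p hp κ hκ
  have hprim1 := prim_of_cop ((3 : ℤ) ^ m) p (by simpa using cop_pow m p hp 1) κ hκ
  have hprim2 := prim_of_cop (((3 : ℤ) ^ m) ^ σ) ((p : ℤ) ^ σ) (cop_pow m p hp σ) κ hκ
  have hirrQ := (IsPrimitive.Int.irreducible_iff_irreducible_map_cast hprim1).mp hirr
  have hr1 := aeval_map_kR _ _ κ β hβeq
  have hr2 := aeval_map_kR _ _ κ (β ^ σ) hγeq
  have hne1 : (kR ((3 : ℤ) ^ m) p κ).map (Int.castRingHom ℚ) ≠ 0 := hirrQ.ne_zero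
  have hne2 : (kR (((3 : ℤ) ^ m) ^ σ) ((p : ℤ) ^ σ) κ).map (Int.castRingHom ℚ) ≠ 0 := by
    intro h0
    have := natDegree_map_kR _ ((p : ℤ) ^ σ) h3σ κ hκ
    rw [h0] at this
    simp at this
    omega
  have hint1 : IsIntegral ℚ β := by
    rw [← isAlgebraic_iff_isIntegral]; exact ⟨_, hne1, hr1⟩
  have hint2 : IsIntegral ℚ (β ^ σ) := hint1.pow σ
  have hdeg1 : (minpoly ℚ β).natDegree = κ := by
    have h4 : Associated (minpoly ℚ β) ((kR ((3 : ℤ) ^ m) p κ).map (Int.castRingHom ℚ)) :=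
      (minpoly.irreducible hint1).associated_of_dvd hirrQ (minpoly.dvd ℚ β hr1)
    rw [natDegree_eq_of_degree_eq (degree_eq_degree_of_associated h4), natDegree_map_kR _ _ h3 κ hκ]
  have hfield : ℚ⟮β ^ σ⟯ = ℚ⟮β⟯ := by
    apply le_antisymm
    · rw [adjoin_simple_le_iff]
      exact pow_mem (mem_adjoin_simple_self ℚ β) σ
    · rw [adjoin_simple_le_iff]
      obtain ⟨u, v, huv⟩ := (Int.isCoprime_iff_gcd_eq_one.mpr (by exact_mod_cast hc) :
        IsCoprime (σ : ℤ) (κ : ℤ))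
      have hb : β = (β ^ σ) ^ u * ((p : ℝ) / 3 ^ m) ^ v := by
        rw [← hβκ, ← zpow_natCast β σ, ← zpow_natCast β κ, ← zpow_mul, ← zpow_mul,
          ← zpow_add₀ hβ0.ne']
        have : (σ : ℤ) * u + (κ : ℤ) * v = 1 := by linarith
        rw [this, zpow_one]
      have hrat : ((p : ℝ) / 3 ^ m) ^ v = algebraMap ℚ ℝ (((p : ℚ) / 3 ^ m) ^ v) := by
        simp
      have hmem : (β ^ σ) ^ u * ((p : ℝ) / 3 ^ m) ^ v ∈ ℚ⟮β ^ σ⟯ := by
        apply mul_mem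
        · exact zpow_mem (mem_adjoin_simple_self ℚ (β ^ σ)) u
        · rw [hrat]
          exact IntermediateField.algebraMap_mem _ _
      rw [← hb] at hmem
      exact hmem
  have hdeg2 : (minpoly ℚ (β ^ σ)).natDegree = κ := by
    rw [← adjoin.finrank hint2, hfield, adjoin.finrank hint1, hdeg1]
  rw [IsPrimitive.Int.irreducible_iff_irreducible_map_cast hprim2]
  obtain ⟨c, hc2⟩ := minpoly.dvd ℚ (β ^ σ) hr2
  have hm0 : minpoly ℚ (β ^ σ) ≠ 0 := minpoly.ne_zero hint2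
  have hc0 : c ≠ 0 := by
    rintro rfl
    rw [mul_zero] at hc2
    exact hne2 hc2
  have hcdeg : c.natDegree = 0 := by
    have h5 := natDegree_map_kR _ ((p : ℤ) ^ σ) h3σ κ hκ
    rw [hc2, natDegree_mul hm0 hc0, hdeg2] at h5
    omega
  have hcu : IsUnit c := by
    rw [eq_C_of_natDegree_eq_zero hcdeg] at hc0 ⊢
    rw [isUnit_C, isUnit_iff_ne_zero]
    rintro h0
    rw [h0] at hc0
    simp at hc0
  rw [hc2]
  exact (irreducible_mul_isUnit hcu).mpr (minpoly.irreducible hint2)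

end Pool.Agent.H71.PW
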