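import Pool.Agent.H71.PW.Sys
import Pool.Agent.H71.PW.Base

open Polynomial

namespace Pool.Agent.H71.PW
open Pool.Agent.H322R2

theorem seqIn (k : ℕ) (hk : 1 ≤ k) (κ : ℕ → ℕ) (hκ : ∀ j, 1 ≤ κ j) (hκk : ∀ j, κ j ≤ k)
    (u : ℕ → ℝ) (hu : ∀ j, 1 ≤ u j) (z : ℕ → ℝ)
    (A r : ℝ) (hA : 1 / 2 ≤ A) (hr : 0 < r) (hAr : A + r ≤ 1) :
    ∃ (s : ℕ → KSt) (ξ : ℝ), (A < ξ ∧ ξ ≤ A + r) ∧ ∀ j, KV k (κ j) (u j) (s j) ∧
      (s j).x + kr k (u j) (s j).m / 2 ≤ ξ ∧ ξ ≤ (s j).x + kr k (u j) (s j).m ∧ ξ ≠ z j ∧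
      j < (s j).m ∧ (3 : ℝ) ^ (s (j + 1)).m ≤ 288 * 2 ^ k * k * ((3 : ℝ) ^ (s j).m) ^ (u j) := by
  obtain ⟨s₀, hs₀, hb1, hb2, -⟩ := k_step0 k hk (κ 0) (hκ 0) (hκk 0) (u 0) (hu 0) 0 A r
    hA hr hAr
  obtain ⟨s, hs⟩ := k_dep (fun j s => KV k (κ j) (u j) s ∧ (j = 0 → s = s₀))
    (fun j s s' => KRel k (u j) (u (j + 1)) (z j) s s') s₀ ⟨hs₀, fun _ => rfl⟩
    (fun j s hV => by
      obtain ⟨s', h1, h2⟩ := k_step k hk (κ j) (u j) (hu j) s hV.1 (κ (j + 1)) (hκ _) (hκk _)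
        (u (j + 1)) (hu _) (z j)
      exact ⟨s', ⟨h1, fun h => absurd h (Nat.succ_ne_zero j)⟩, h2⟩)
  have hs00 : s 0 = s₀ := (hs 0).1.2 rfl
  have hrpos : ∀ j, 0 < kr k (u j) (s j).m := fun j => kr_pos k hk _ _
  have hmono : Monotone (fun j => (s j).x) := by
    apply monotone_nat_of_le_succ
    intro j
    have := (hs j).2.1
    have := hrpos j
    linarith
  have hanti : Antitone (fun j => (s j).x + kr k (u j) (s j).m) := by
    apply antitone_nat_of_succ_le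
    intro j
    exact (hs j).2.2.1
  have hcross : ∀ i j, (s i).x ≤ (s j).x + kr k (u j) (s j).m := by
    intro i j
    rcases le_total i j with h | h
    · have h1 : (s i).x ≤ (s j).x := hmono h
      have := hrpos j
      linarith
    · have h1 : (s i).x + kr k (u i) (s i).m ≤ (s j).x + kr k (u j) (s j).m := hanti h
      have := hrpos i
      linarith
  have hbdd : BddAbove (Set.range (fun j => (s j).x)) := by
    refine ⟨(s 0).x + kr k (u 0) (s 0).m, ?_⟩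
    rintro _ ⟨i, rfl⟩
    exact hcross i 0
  have hle : ∀ j, (s j).x ≤ ⨆ j, (s j).x := fun j => le_ciSup hbdd j
  have hge : ∀ j, (⨆ j, (s j).x) ≤ (s j).x + kr k (u j) (s j).m :=
    fun j => ciSup_le (fun i => hcross i j)
  have hm : ∀ j, j < (s j).m := by
    intro j
    induction j with
    | zero => exact (hs 0).1.1.2.2.2.2
    | succ j ih =>
      have := (hs j).2.2.2.2.1
      omega
  refine ⟨s, ⨆ j, (s j).x, ⟨?_, ?_⟩,
    fun j => ⟨(hs j).1.1, ?_, hge j, ?_, hm j, (hs j).2.2.2.2.2⟩⟩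
  · have h1 := hle 0
    rw [hs00] at h1
    linarith
  · have h1 := hge 0
    rw [hs00] at h1
    linarith
  · exact (hs j).2.1.trans (hle (j + 1))
  · rcases (hs j).2.2.2.1 with h | h
    · have := hle (j + 1)
      exact (lt_of_lt_of_le h this).ne'
    · have := hge (j + 1)
      exact (lt_of_le_of_lt this h).ne


theorem kappa_eq (K M ℓ : ℕ) (hℓ : 1 ≤ ℓ) (hℓK : ℓ ≤ K) :
    (K * (M + 1) + (ℓ - 1)) % K + 1 = ℓ := by
  rw [Nat.mul_add_mod, Nat.mod_eq_of_lt (by omega)]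
  omega

theorem exist (K N : ℕ) (hK : 1 ≤ K) (hN : 1 ≤ N) (V : ℕ → ℝ)
    (hbig : ∀ k, 1 ≤ k → k ≤ K → 2 * (K : ℝ) ^ 2 * N + K ≤ V k)
    (hcomp : ∀ κ ℓ, 1 ≤ κ → κ ≤ K → 1 ≤ ℓ → ℓ ≤ K →
      V κ + 1 ≤ ((ℓ / Nat.gcd κ ℓ : ℕ) : ℝ) * (V ℓ + 1))
    (C : Set ℝ) (hC : C.Countable) (A r : ℝ) (hA : 1 / 2 ≤ A) (hr0 : 0 < r) (hAr : A + r ≤ 1) :
    ∃ ξ : ℝ, (ξ ∉ C ∧ A < ξ ∧ ξ ≤ A + r) ∧ Transcendental ℤ ξ ∧
      ∀ k n, 1 ≤ k → k ≤ K → 1 ≤ n → n ≤ N →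
        mahlerExp n (ξ ^ k) = ENNReal.ofReal (V k) ∧
        koksmaExp n (ξ ^ k) = ENNReal.ofReal (V k) := by
  classical
  have hk' : (1 : ℝ) ≤ K := by exact_mod_cast hK
  have hN0 : (0 : ℝ) ≤ (N : ℝ) := Nat.cast_nonneg _
  obtain ⟨z, hz⟩ := ((Algebraic.countable ℤ ℝ).union hC).exists_eq_range
    ⟨0, Or.inl isAlgebraic_zero⟩
  set κ : ℕ → ℕ := fun j => j % K + 1 with hκ
  set u : ℕ → ℝ := fun j => V (κ j) + 1 with hu
  have hκ1 : ∀ j, 1 ≤ κ j := by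
    intro j; simp only [hκ]; omega
  have hκk : ∀ j, κ j ≤ K := by
    intro j; simp only [hκ]
    have := Nat.mod_lt j (by omega : 0 < K)
    omega
  set U : ℝ := 2 * (K : ℝ) ^ 2 * N + K with hU
  have hU0 : 0 ≤ U := by rw [hU]; positivity
  have hVU : ∀ j, U ≤ V (κ j) := fun j => hbig _ (hκ1 j) (hκk j)
  have hu1 : ∀ j, U + 1 ≤ u j := by
    intro j; simp only [hu]; have := hVU j; linarith
  have hu4 : ∀ j, 1 ≤ u j := fun j => by have := hu1 j; linarith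
  obtain ⟨s, ξ, hξ, hs⟩ := seqIn K hK κ hκ1 hκk u hu4 z A r hA hr0 hAr
  have hV : ∀ j, KV K (κ j) (u j) (s j) := fun j => (hs j).1
  have hl : ∀ j, (s j).x + kr K (u j) (s j).m / 2 ≤ ξ := fun j => (hs j).2.1
  have hr : ∀ j, ξ ≤ (s j).x + kr K (u j) (s j).m := fun j => (hs j).2.2.1
  have hne : ∀ j, ξ ≠ z j := fun j => (hs j).2.2.2.1
  have hm : ∀ j, j < (s j).m := fun j => (hs j).2.2.2.2.1
  have hnx := fun j => (hs j).2.2.2.2.2
  have hrpos : ∀ j, 0 < kr K (u j) (s j).m := fun j => kr_pos K (by omega) _ _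
  have hξ1 := (hr 0).trans (hV 0).2.1
  have hξ0 : 0 ≤ ξ := by
    have h1 := (hV 0).1
    have h2 := hl 0
    have h3 := hrpos 0
    linarith
  refine ⟨ξ, ⟨?_, hξ⟩, ?_, ?_⟩
  · intro hξC
    have : ξ ∈ {x : ℝ | IsAlgebraic ℤ x} ∪ C := Or.inr hξC
    rw [hz] at this
    obtain ⟨j, hj⟩ := this
    exact hne j hj.symm
  · intro halg
    have : ξ ∈ {x : ℝ | IsAlgebraic ℤ x} ∪ C := Or.inl halg
    rw [hz] at this
    obtain ⟨j, hj⟩ := this
    exact hne j hj.symm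
  · intro ℓ n hℓ hℓK hn hnN
    have hVℓ : U ≤ V ℓ := hbig ℓ hℓ hℓK
    have S := sysPow K N hK hN ℓ hℓ hℓK U (by rw [hU]; push_cast; nlinarith) (V ℓ) hVℓ κ u hκ1 hκk
      hu1 (fun j => hcomp (κ j) ℓ (hκ1 j) (hκk j) hℓ hℓK) s ξ hV hl hr hm hnx
    have hlow : Low n (V ℓ) (ξ ^ ℓ) := S.lower n hnN
    have hgood : Good (V ℓ) (ξ ^ ℓ) := by
      intro M
      set j := K * (M + 1) + (ℓ - 1) with hj
      have hjM : M < j := by
        have : M + 1 ≤ K * (M + 1) := Nat.le_mul_of_pos_left _ (by omega)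
        omega
      have hκj : κ j = ℓ := by simp only [hκ]; exact kappa_eq K M ℓ hℓ hℓK
      have huj : u j = V ℓ + 1 := by simp only [hu]; rw [hκj]
      have h3 : (3 : ℝ) ^ (s j).m * (s j).x ^ κ j = (s j).p := (hV j).2.2.1
      rw [hκj] at h3
      have hx : (s j).x ^ ℓ = (s j).p / 3 ^ (s j).m := by
        rw [eq_div_iff (by positivity)]; linarith
      have h0 := (hV j).1
      have h1 := hl j
      have h2 := hrpos j
      have h4 := hr j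
      have h8 := (hV j).2.1
      refine ⟨(s j).m, (s j).p, by have := hm j; omega, (hV j).2.2.2.1,
        k_p_le K (κ j) (by omega) (u j) (s j) (hV j), ?_, ?_⟩
      · rw [← hx]
        have h5 := k_pow_lower K ℓ hℓ hℓK (s j).x ξ h0 (by linarith)
        have h6 : 0 < (ξ - (s j).x) * (1 / 2) ^ K := by
          apply mul_pos (by linarith) (by positivity)
        linarith
      · rw [← hx]
        have h5 := k_pow_diff ξ (s j).x (by rw [abs_of_nonneg (by linarith)]; exact hξ1)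
          (by rw [abs_of_nonneg (by linarith)]; linarith) ℓ
        refine (le_abs_self _).trans (h5.trans ?_)
        rw [abs_of_nonneg (by linarith)]
        have h7 : ξ - (s j).x ≤ kr K (u j) (s j).m := by linarith
        have hℓ' : (ℓ : ℝ) ≤ K := by exact_mod_cast hℓK
        have h9 : (ℓ : ℝ) * (ξ - (s j).x) ≤ K * kr K (u j) (s j).m :=
          mul_le_mul hℓ' h7 (by linarith) (by linarith)
        refine h9.trans (le_of_eq ?_)
        unfold kr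
        rw [huj, ← mul_assoc, mul_one_div_cancel (by linarith), one_mul]
        congr 1
        ring
    have hV0 : 0 ≤ V ℓ := hU0.trans hVℓ
    exact ⟨mahler_eq n hn (V ℓ) _ hV0 hlow hgood,
      koksma_eq n hn (V ℓ) _ (by positivity) (pow_le_one₀ hξ0 hξ1) hV0 hlow hgood⟩

end Pool.Agent.H71.PW
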