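import Pool.Agent.H71.PW.Irr
import Pool.Graph.R_seed8.H322R2.KD

open Polynomial

namespace Pool.Agent.H71.PW
open Pool.Agent.H322R2

/-- the exponent `σ = ℓ / gcd(κ, ℓ)` -/
def sg (κ ℓ : ℕ) : ℕ := ℓ / Nat.gcd κ ℓ

/-- the degree `κ' = κ / gcd(κ, ℓ)` -/
def kp (κ ℓ : ℕ) : ℕ := κ / Nat.gcd κ ℓ

theorem sg_pos (κ ℓ : ℕ) (hℓ : 1 ≤ ℓ) : 1 ≤ sg κ ℓ :=
  Nat.div_pos (Nat.le_of_dvd (by omega) (Nat.gcd_dvd_right κ ℓ)) (Nat.gcd_pos_of_pos_right _ (by omega))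

theorem kp_pos (κ ℓ : ℕ) (hκ : 1 ≤ κ) : 1 ≤ kp κ ℓ :=
  Nat.div_pos (Nat.le_of_dvd (by omega) (Nat.gcd_dvd_left κ ℓ)) (Nat.gcd_pos_of_pos_left _ (by omega))

theorem sg_le (κ ℓ : ℕ) : sg κ ℓ ≤ ℓ := Nat.div_le_self _ _
theorem kp_le (κ ℓ : ℕ) : kp κ ℓ ≤ κ := Nat.div_le_self _ _

theorem sg_kp (κ ℓ : ℕ) : ℓ * kp κ ℓ = κ * sg κ ℓ := by
  unfold sg kp
  rw [← Nat.mul_div_assoc _ (Nat.gcd_dvd_left κ ℓ), ← Nat.mul_div_assoc _ (Nat.gcd_dvd_right κ ℓ),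
    mul_comm]

theorem sg_cop (κ ℓ : ℕ) (hℓ : 1 ≤ ℓ) : Nat.Coprime (sg κ ℓ) (kp κ ℓ) := by
  unfold sg kp
  exact (Nat.coprime_div_gcd_div_gcd (Nat.gcd_pos_of_pos_right _ (by omega))).symm

/-- the system for `ξ ^ ℓ` -/
noncomputable def sysPow (K D : ℕ) (hK : 1 ≤ K) (hD : 1 ≤ D) (ℓ : ℕ) (hℓ : 1 ≤ ℓ) (hℓK : ℓ ≤ K)
    (U : ℝ) (hU : 2 * (K : ℝ) * ((K * D : ℕ) : ℝ) + K ≤ U) (Ω : ℝ) (hΩU : U ≤ Ω)
    (κ : ℕ → ℕ) (u : ℕ → ℝ) (hκ1 : ∀ j, 1 ≤ κ j) (hκK : ∀ j, κ j ≤ K)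
    (hu1 : ∀ j, U + 1 ≤ u j) (hu2 : ∀ j, u j ≤ (sg (κ j) ℓ : ℝ) * (Ω + 1))
    (s : ℕ → KSt) (ξ : ℝ) (hV : ∀ j, KV K (κ j) (u j) (s j))
    (hl : ∀ j, (s j).x + kr K (u j) (s j).m / 2 ≤ ξ)
    (hr : ∀ j, ξ ≤ (s j).x + kr K (u j) (s j).m)
    (hm : ∀ j, j < (s j).m)
    (hnx : ∀ j, (3 : ℝ) ^ (s (j + 1)).m ≤ 288 * 2 ^ K * K * ((3 : ℝ) ^ (s j).m) ^ (u j)) :
    KSys D (K * D) K Ω (ξ ^ ℓ) where
  T := fun j => (3 : ℝ) ^ (s j).m
  a := fun j => ((3 : ℤ) ^ (s j).m) ^ sg (κ j) ℓ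
  b := fun j => ((s j).p : ℤ) ^ sg (κ j) ℓ
  κ := fun j => kp (κ j) ℓ
  y := fun j => (s j).x ^ ℓ
  u := u
  C₁ := 1
  C₂ := 288 * 2 ^ K * K
  c₃ := 1 / (K : ℝ) / 2 * (1 / 2) ^ (K * K)
  hC₁ := le_rfl
  hC₂ := by
    have : (0 : ℝ) < K := by exact_mod_cast (by omega : 0 < K)
    positivity
  hc₃ := by
    have : (0 : ℝ) < K := by exact_mod_cast (by omega : 0 < K)
    positivity
  hx0 := by
    have h1 := (hV 0).1
    have h2 := hl 0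
    have h3 := kr_pos K (by omega) (u 0) (s 0).m
    have : 0 ≤ ξ := by linarith
    positivity
  hx1 := by
    have h1 := (hV 0).1
    have h2 := hl 0
    have h3 := kr_pos K (by omega) (u 0) (s 0).m
    exact pow_le_one₀ (by linarith) ((hr 0).trans (hV 0).2.1)
  hT1 := fun j => one_le_pow₀ (by norm_num)
  hTj := fun j => by
    have h1 := k_lt_three (s j).m
    have h2 : (j : ℝ) ≤ (s j).m := by exact_mod_cast (hm j).le
    linarith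
  hb := fun j => by
    have : 0 < ((s j).p : ℤ) := by
      have := (hV j).2.2.2.1
      omega
    positivity
  hba := fun j => by
    have := k_p_le K (κ j) (by omega) (u j) (s j) (hV j)
    have h2 : ((s j).p : ℤ) ≤ (3 : ℤ) ^ (s j).m := by exact_mod_cast this
    exact pow_le_pow_left₀ (by positivity) h2 _
  hκ := fun j => kp_pos _ _ (hκ1 j)
  hκK := fun j => (kp_le _ _).trans (hκK j)
  hirr := fun j => kR_irr_gen (s j).m (hV j).2.2.2.2 (s j).p (hV j).2.2.2.1 (kp (κ j) ℓ)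
    (sg (κ j) ℓ) (kp_pos _ _ (hκ1 j)) (sg_cop _ _ hℓ)
  hy0 := fun j => by
    have := (hV j).1
    have : 0 ≤ (s j).x := by linarith
    positivity
  hy := fun j => by
    have h1 := (hV j).2.2.1
    push_cast
    have e : ((s j).x ^ ℓ) ^ kp (κ j) ℓ = ((s j).x ^ κ j) ^ sg (κ j) ℓ := by
      rw [← pow_mul, ← pow_mul, sg_kp]
    rw [← h1, mul_pow, e]
  hclose := fun j => by
    have h0 := (hV j).1
    have h1 := hl j
    have h2 := hr j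
    have h3 := kr_pos K (by omega) (u j) (s j).m
    have hk' : (0 : ℝ) < K := by exact_mod_cast (by omega : 0 < K)
    have hℓ' : (ℓ : ℝ) ≤ K := by exact_mod_cast hℓK
    have hξ1 := (hr 0).trans (hV 0).2.1
    have h4 := k_pow_diff ξ (s j).x (by rw [abs_of_nonneg (by linarith)]; exact hξ1)
      (by rw [abs_of_nonneg (by linarith)]; linarith [(hV j).2.1]) ℓ
    refine h4.trans ?_
    rw [abs_of_nonneg (by linarith), one_mul]
    have h5 : ξ - (s j).x ≤ kr K (u j) (s j).m := by linarith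
    have h6 : (ℓ : ℝ) * (ξ - (s j).x) ≤ K * kr K (u j) (s j).m :=
      mul_le_mul hℓ' h5 (by linarith) hk'.le
    refine h6.trans (le_of_eq ?_)
    unfold kr
    field_simp
  haT := fun j => by
    have hσ : sg (κ j) ℓ ≤ K := (sg_le _ _).trans hℓK
    push_cast
    rw [← pow_mul]
    apply pow_le_pow_right₀ (one_le_pow₀ (by norm_num))
    exact Nat.mul_le_mul_right _ hσ
  hnext := hnx
  hu := fun j => by
    have h1 := hu1 j
    have hk' : (1 : ℝ) ≤ K := by exact_mod_cast hK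
    have hN : (0 : ℝ) ≤ ((K * D : ℕ) : ℝ) := Nat.cast_nonneg _
    nlinarith
  hR := fun j => by
    have hx := (hV j).1
    have h1 := hl j
    have h3 := kr_pos K (by omega) (u j) (s j).m
    have he1 : 1 ≤ ℓ * kp (κ j) ℓ := Nat.mul_pos hℓ (kp_pos _ _ (hκ1 j))
    have heK : ℓ * kp (κ j) ℓ ≤ K * K :=
      Nat.mul_le_mul hℓK ((kp_le _ _).trans (hκK j))
    have h4 := k_pow_lower (K * K) (ℓ * kp (κ j) ℓ) he1 heK (s j).x ξ hx (by linarith)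
    have hT : (0 : ℝ) < (3 : ℝ) ^ (s j).m := by positivity
    have hT1 : (1 : ℝ) ≤ (3 : ℝ) ^ (s j).m := one_le_pow₀ (by norm_num)
    rw [kR_aeval]
    push_cast
    set T : ℝ := (3 : ℝ) ^ (s j).m with hTdef
    set σ := sg (κ j) ℓ with hσdef
    have hTs : (0 : ℝ) < T ^ σ := by positivity
    have hb' : ((s j).p : ℝ) ^ σ = T ^ σ * (s j).x ^ (ℓ * kp (κ j) ℓ) := by
      have e : (s j).x ^ (ℓ * kp (κ j) ℓ) = ((s j).x ^ κ j) ^ σ := by rw [sg_kp, pow_mul]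
      rw [e, ← (hV j).2.2.1, mul_pow]
    have e2 : (ξ ^ ℓ) ^ kp (κ j) ℓ = ξ ^ (ℓ * kp (κ j) ℓ) := (pow_mul _ _ _).symm
    rw [hb', e2, ← mul_sub, abs_mul, abs_of_pos hTs]
    have h5 : (kr K (u j) (s j).m / 2) * (1 / 2) ^ (K * K) ≤
        |ξ ^ (ℓ * kp (κ j) ℓ) - (s j).x ^ (ℓ * kp (κ j) ℓ)| := by
      refine le_trans ?_ (le_abs_self _)
      refine le_trans ?_ h4
      apply mul_le_mul_of_nonneg_right _ (by positivity)
      linarith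
    refine le_trans ?_ (mul_le_mul_of_nonneg_left h5 hTs.le)
    unfold kr
    rw [← hTdef]
    have h6 : (T ^ σ) ^ (-Ω) ≤ T ^ σ * T ^ (-(u j)) := by
      rw [← Real.rpow_natCast T σ, ← Real.rpow_mul hT.le, ← Real.rpow_add hT]
      apply Real.rpow_le_rpow_of_exponent_le hT1
      have := hu2 j
      linarith
    have hk' : (0 : ℝ) < K := by exact_mod_cast (by omega : 0 < K)
    calc 1 / (K : ℝ) / 2 * (1 / 2) ^ (K * K) * (T ^ σ) ^ (-Ω)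
        ≤ 1 / (K : ℝ) / 2 * (1 / 2) ^ (K * K) * (T ^ σ * T ^ (-(u j))) :=
          mul_le_mul_of_nonneg_left h6 (by positivity)
      _ = _ := by ring
  hΩ := by
    have hk' : (1 : ℝ) ≤ K := by exact_mod_cast hK
    have hN : (0 : ℝ) ≤ ((K * D : ℕ) : ℝ) := Nat.cast_nonneg _
    linarith
  hN := Nat.mul_pos (by omega) hD
  hK := hK

end Pool.Agent.H71.PW
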