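import Pool.Agent.H71.PW.Base
import Pool.Agent.H71.PW.Sys

open Polynomial

namespace Pool.Agent.H71.PW
open Pool.Agent.H322R2

/-- the substitution `X ↦ X^d` -/
theorem mahler_pow_le (n d : ℕ) (hd : 1 ≤ d) (x : ℝ) :
    mahlerExp n (x ^ d) ≤ mahlerExp (d * n) x := by
  unfold mahlerExp
  apply sSup_le_sSup
  rintro e ⟨w, hw, he, hinf⟩
  refine ⟨w, hw, he, ?_⟩
  refine (hinf.image (f := fun P : ℤ[X] => expand ℤ d P)
    ((expand_injective (by omega)).injOn)).mono ?_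
  rintro _ ⟨P, ⟨hdeg, hpos, hle⟩, rfl⟩
  have hev : aeval x (expand ℤ d P) = aeval (x ^ d) P := expand_aeval d P x
  have hP : P ≠ 0 := by rintro rfl; simp at hpos
  have hE : expand ℤ d P ≠ 0 := by
    rw [Ne, expand_eq_zero (by omega)]; exact hP
  refine ⟨?_, ?_, ?_⟩
  · simp only [natDegree_expand]
    rw [mul_comm]
    exact Nat.mul_le_mul_left _ hdeg
  · simp only [hev]; exact hpos
  · simp only [hev]
    refine hle.trans ?_
    have h1 : height (expand ℤ d P) ≤ height P := by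
      apply height_le
      intro i
      rw [coeff_expand (by omega)]
      split_ifs with h
      · have h2 := coeff_le_height P (i / d)
        have h3 : |P.coeff (i / d)| ≤ (height P : ℤ) := by exact_mod_cast h2
        rw [Int.abs_eq_natAbs] at h3
        exact_mod_cast h3
      · simp
    have h2 : (1 : ℝ) ≤ height (expand ℤ d P) := one_le_height _ hE
    have h3 : (height (expand ℤ d P) : ℝ) ≤ height P := by exact_mod_cast h1
    exact Real.rpow_le_rpow_of_nonpos (by linarith) h3 (by linarith)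

theorem gap_nec (K N : ℕ) (hN : 1 ≤ N) (hKN : K ≤ N) (δ : ℕ → ℝ)
    (hδ : ∀ k, 1 ≤ k → k ≤ K → 0 ≤ δ k) (ξ : ℝ)
    (h : ∀ k n, 1 ≤ k → k ≤ K → 1 ≤ n → n ≤ N →
      mahlerExp (k * n) ξ = mahlerExp n (ξ ^ k) + ENNReal.ofReal (δ k) ∧
      mahlerExp n (ξ ^ k) ≠ ⊤) (hK : 1 ≤ K) :
    δ 1 = 0 ∧ ∀ k d, 1 ≤ k → 1 ≤ d → k * d ≤ K → δ k ≤ δ (k * d) := by
  constructor
  · obtain ⟨h1, h2⟩ := h 1 1 le_rfl hK le_rfl hN
    rw [pow_one] at h1 h2
    have h3 : mahlerExp 1 ξ + 0 = mahlerExp 1 ξ + ENNReal.ofReal (δ 1) := by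
      rw [add_zero]; exact h1
    have h4 := (ENNReal.add_right_inj h2).mp h3
    have h5 := ENNReal.ofReal_eq_zero.mp h4.symm
    exact le_antisymm h5 (hδ 1 le_rfl hK)
  · intro k d hk hd hkd
    have hkK : k ≤ K := (Nat.le_mul_of_pos_right k hd).trans hkd
    have hdK : d ≤ K := (Nat.le_mul_of_pos_left d hk).trans hkd
    obtain ⟨h1, h2⟩ := h (k * d) 1 (Nat.mul_pos hk hd) hkd le_rfl hN
    obtain ⟨h3, h4⟩ := h k d hk hkK hd (hdK.trans hKN)
    rw [mul_one] at h1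
    have h5 : mahlerExp 1 (ξ ^ (k * d)) ≤ mahlerExp d (ξ ^ k) := by
      have := mahler_pow_le 1 d hd (ξ ^ k)
      rwa [mul_one, ← pow_mul] at this
    have h6 : mahlerExp 1 (ξ ^ (k * d)) + ENNReal.ofReal (δ k) ≤
        mahlerExp 1 (ξ ^ (k * d)) + ENNReal.ofReal (δ (k * d)) := by
      rw [← h1, h3]
      gcongr
    have h7 := (ENNReal.add_le_add_iff_left h2).mp h6
    exact (ENNReal.ofReal_le_ofReal_iff (hδ _ (Nat.mul_pos hk hd) hkd)).mp h7

end Pool.Agent.H71.PW
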